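import Pool.Agent.WK64.Parse

/-! Word equations with boundedly many variables (MP_fc7ad9_lc). Helper module:
a word with a long period that is parsed by its double root. -/

namespace WKR5

open WK64

variable {A : Type*}

/-- `q` is a period of `u` -/
def Pd (q : ℕ) (u : List A) : Prop := ∀ i, i + q < u.length → u[i]? = u[i + q]?

theorem Pd.prefix_of {q : ℕ} {u v : List A} (h : Pd q (u ++ v)) : Pd q u := by
  intro i hi
  have h1 := h i (by rw [List.length_append]; omega)
  rwa [List.getElem?_append_left (by omega), List.getElem?_append_left (by omega)] at h1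

theorem Pd.suffix_of {q : ℕ} {u v : List A} (h : Pd q (u ++ v)) : Pd q v := by
  intro i hi
  have h1 := h (u.length + i) (by rw [List.length_append]; omega)
  rw [List.getElem?_append_right (by omega), List.getElem?_append_right (by omega)] at h1
  have e1 : u.length + i - u.length = i := by omega
  have e2 : u.length + i + q - u.length = i + q := by omega
  rwa [e1, e2] at h1

theorem Pd.take {q : ℕ} {u : List A} (h : Pd q u) (l : ℕ) : Pd q (u.take l) :=
  Pd.prefix_of (v := u.drop l) (by rwa [List.take_append_drop])

theorem Pd.drop {q : ℕ} {u : List A} (h : Pd q u) (l : ℕ) : Pd q (u.drop l) :=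
  Pd.suffix_of (u := u.take l) (by rwa [List.take_append_drop])

theorem Pd.sub {p q : ℕ} {u : List A} (hp : Pd p u) (hq : Pd q u) (hpq : p ≤ q)
    (h : p + q ≤ u.length) : Pd (q - p) u := by
  intro i hi
  rcases Nat.lt_or_ge i p with h1 | h1
  · have h2 := hq i (by omega)
    have h3 := hp (i + (q - p)) (by omega)
    rw [h2, h3]
    congr 1
    omega
  · have h2 := hp (i - p) (by omega)
    have h3 := hq (i - p) (by omega)
    have e1 : i - p + p = i := by omega
    have e2 : i - p + q = i + (q - p) := by omega
    rw [e1] at h2
    rw [e2] at h3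
    rw [← h2, h3]

theorem Pd.gcd_aux : ∀ (n p q : ℕ) {u : List A}, p + q ≤ n → Pd p u → Pd q u →
    p + q ≤ u.length → Pd (Nat.gcd p q) u
  | 0, p, q, u, h, hp, hq, hl => by
      have h1 : p = 0 := by omega
      have h2 : q = 0 := by omega
      subst h1 h2
      exact hp
  | n + 1, p, q, u, h, hp, hq, hl => by
      rcases Nat.eq_zero_or_pos p with h1 | h1
      · subst h1
        rw [Nat.gcd_zero_left]
        exact hq
      rcases Nat.eq_zero_or_pos q with h2 | h2
      · subst h2
        rw [Nat.gcd_zero_right]
        exact hp
      rcases Nat.le_total p q with h3 | h3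
      · have h4 := Pd.gcd_aux n p (q - p) (u := u) (by omega) hp (hp.sub hq h3 hl) (by omega)
        rwa [Nat.gcd_sub_self_right h3] at h4
      · have h4 := Pd.gcd_aux n (p - q) q (u := u) (by omega) (hq.sub hp h3 (by omega)) hq
          (by omega)
        rwa [Nat.gcd_sub_self_left h3] at h4

theorem Pd.gcd {p q : ℕ} {u : List A} (hp : Pd p u) (hq : Pd q u)
    (hl : p + q ≤ u.length) : Pd (Nat.gcd p q) u := Pd.gcd_aux _ p q le_rfl hp hq hl

theorem Pd.mod {q : ℕ} {u : List A} (h : Pd q u) (hq : 1 ≤ q) : ∀ i, i < u.length →
    u[i]? = u[i % q]? := by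
  intro i
  induction i using Nat.strong_induction_on with
  | _ i ih =>
    intro hi
    rcases Nat.lt_or_ge i q with h1 | h1
    · rw [Nat.mod_eq_of_lt h1]
    · have h2 := h (i - q) (by omega)
      have h3 := ih (i - q) (by omega) (by omega)
      have e1 : i - q + q = i := by omega
      rw [e1] at h2
      rw [← h2, h3, Nat.mod_eq_sub_mod h1]

theorem Pd.ext {q g l : ℕ} {u : List A} (h : Pd q u) (hg : Pd g (u.take l)) (hq : 1 ≤ q)
    (h1 : 1 ≤ g) (hl : q ≤ l) (hd : g ∣ q) : Pd g u := by
  have key : ∀ i, i < u.length → u[i]? = u[i % g]? := by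
    intro i hi
    have h2 := h.mod hq i hi
    have h3 : i % q < q := Nat.mod_lt _ hq
    have h4 : i % q ≤ i := Nat.mod_le _ _
    have h5 : i % q < (u.take l).length := by rw [List.length_take]; omega
    have h6 := hg.mod h1 (i % q) h5
    have h7 : (i % q) % g = i % g := Nat.mod_mod_of_dvd i hd
    have h8 : i % g ≤ i % q := by rw [← h7]; exact Nat.mod_le _ _
    rw [h7, List.getElem?_take_of_lt (by omega), List.getElem?_take_of_lt (by omega)] at h6
    rw [h2, h6]
  intro i hi
  rw [key i (by omega), key (i + g) hi, Nat.add_mod_right]

/-- two places at distance `t` -/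
theorem Pd.of_suffix {m h t : List A} (h1 : m <:+ h) (h2 : m <:+ h ++ t) : Pd t.length m := by
  obtain ⟨a, rfl⟩ := h1
  obtain ⟨b, hb⟩ := h2
  have hl : b.length = a.length + t.length := by
    have := congrArg List.length hb
    simp only [List.length_append] at this
    omega
  intro i hi
  have e1 : (b ++ m)[b.length + i]? = m[i]? := by
    rw [List.getElem?_append_right (by omega)]
    congr 1
    omega
  have e2 : (a ++ m ++ t)[b.length + i]? = m[i + t.length]? := by
    rw [List.append_assoc, List.getElem?_append_right (by omega),
      List.getElem?_append_left (by omega)]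
    congr 1
    omega
  rw [← e1, hb, e2]

theorem Pd.drop_prefix {q : ℕ} {u : List A} (h : Pd q u) : u.drop q = u.take (u.length - q) := by
  apply List.ext_getElem?
  intro i
  rcases Nat.lt_or_ge (i + q) u.length with h1 | h1
  · rw [List.getElem?_drop, List.getElem?_take_of_lt (by omega), h i h1]
    congr 1
    omega
  · rw [List.getElem?_eq_none (by rw [List.length_drop]; omega),
      List.getElem?_eq_none (by rw [List.length_take]; omega)]

theorem Pd.rep {q : ℕ} {u : List A} (h : Pd q u) : ∀ e : ℕ, e * q ≤ u.length →
    u.take (e * q) = (List.replicate e (u.take q)).flatten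
  | 0, _ => by simp
  | e + 1, he => by
      rw [Nat.add_mul, Nat.one_mul] at he
      have ih := Pd.rep h e (by omega)
      rw [List.replicate_succ, List.flatten_cons, ← ih, Nat.add_mul, Nat.one_mul, Nat.add_comm,
        List.take_add, h.drop_prefix, List.take_take, Nat.min_eq_left (by omega)]

section Space

variable (K : List A → Prop) [DecidablePred K]

/-- two cuts have distance at least `q` -/
def Spaced (q : ℕ) : Prop := ∀ h t : List A, K h → K (h ++ t) → t ≠ [] → q ≤ t.length

theorem out_eq_nil : ∀ (u h p : List A), (∀ t v, u = t ++ v → t ≠ [] → ¬ K (h ++ t)) →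
    out K h p u = []
  | [], h, p, _ => rfl
  | a :: u, h, p, hK => by
      have h1 := hK [a] u (by simp) (by simp)
      simp only [out]
      rw [if_neg h1]
      apply out_eq_nil u
      intro t v e ht
      have h2 := hK (a :: t) v (by rw [e]; simp) (by simp)
      rwa [List.append_assoc, List.singleton_append]

theorem out_count {q : ℕ} (hq : Spaced K q) : ∀ (u h p : List A) (j : ℕ),
    (∀ t : List A, t ≠ [] → K (h ++ t) → j ≤ t.length) →
    out K h p u = [] ∨ (out K h p u).length * q + j ≤ u.length + q
  | [], h, p, j, _ => Or.inl rfl
  | a :: u, h, p, j, hj => by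
      simp only [out]
      by_cases h1 : K (h ++ [a])
      · rw [if_pos h1]
        right
        have h2 : j ≤ 1 := hj [a] (by simp) h1
        have h3 := out_count hq u (h ++ [a]) [] q (fun t ht hK => hq _ t h1 hK ht)
        rcases h3 with h3 | h3
        · rw [h3]
          simp only [List.length_cons, List.length_nil]
          omega
        · simp only [List.length_cons, Nat.add_mul, Nat.one_mul]
          omega
      · rw [if_neg h1]
        have h3 := out_count hq u (h ++ [a]) (p ++ [a]) (j - 1) (fun t ht hK => by
          have h4 := hj (a :: t) (by simp) (by rwa [List.append_assoc, List.singleton_append] at hK)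
          simp only [List.length_cons] at h4
          omega)
        rcases h3 with h3 | h3
        · exact Or.inl h3
        · right
          simp only [List.length_cons]
          omega

theorem out_len {q c : ℕ} (hq : Spaced K q) (_h1 : 1 ≤ q) (u h p : List A)
    (hu : u.length ≤ c * q) : (out K h p u).length ≤ c := by
  rcases out_count K hq u h p 1 (fun t ht _ => List.length_pos_of_ne_nil ht) with h2 | h2
  · rw [h2]; simp
  · by_contra h3
    have h4 : (c + 1) * q ≤ (out K h p u).length * q := Nat.mul_le_mul_right q (by omega)
    rw [Nat.add_mul, Nat.one_mul] at h4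
    omega

theorem out_lt {q : ℕ} (hq : Spaced K q) (u h p : List A) (hK : K h)
    (hu : u.length < q) : out K h p u = [] := by
  apply out_eq_nil
  intro t v e ht h2
  have h3 := hq h t hK h2 ht
  have h4 := congrArg List.length e
  rw [List.length_append] at h4
  omega

/-- one block from a cut to the next -/
theorem out_one {q : ℕ} (hq : Spaced K q) (h1 : 1 ≤ q) (r h : List A) (hK : K h)
    (hK' : K (h ++ r)) (hr : r.length = q) : out K h [] r = [r] := by
  obtain ⟨v, a, rfl⟩ : ∃ v a, r = v ++ [a] := by
    have h2 : r ≠ [] := by
      intro h3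
      rw [h3] at hr
      simp at hr
      omega
    exact ⟨r.dropLast, r.getLast h2, (List.dropLast_append_getLast h2).symm⟩
  have h3 : out K h [] v = [] := by
    apply out_lt K hq v h [] hK
    rw [List.length_append, List.length_singleton] at hr
    omega
  have h4 := flatten_out K v h []
  rw [h3, List.flatten_nil, List.nil_append, List.nil_append] at h4
  rw [out_append, h3, h4, List.nil_append]
  simp only [out]
  rw [if_pos]
  rw [List.append_assoc]
  exact hK'

theorem out_rep {q : ℕ} (hq : Spaced K q) (h1 : 1 ≤ q) (r : List A) (hr : r.length = q) :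
    ∀ (c : ℕ) (h : List A), (∀ i, i ≤ c → K (h ++ (List.replicate i r).flatten)) →
      out K h [] (List.replicate c r).flatten = List.replicate c r
  | 0, h, _ => by simp [out]
  | c + 1, h, hc => by
      have h2 : K h := by simpa using hc 0 (by omega)
      have h3 : K (h ++ r) := by simpa using hc 1 (by omega)
      have h4 : r ≠ [] := by
        intro h5
        rw [h5] at hr
        simp at hr
        omega
      rw [List.replicate_succ, List.flatten_cons, out_append, out_one K hq h1 r h h2 h3 hr,
        pend_of_K K r h4 h [] h3, out_rep hq h1 r hr c (h ++ r), List.singleton_append]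
      intro i hi
      have h5 := hc (i + 1) (by omega)
      rwa [List.replicate_succ, List.flatten_cons, ← List.append_assoc] at h5

end Space

end WKR5
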