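import Pool.Agent.WE45.Enc

/-! Word equations with boundedly many variables (MP_fc7ad9_lc). Helper module:
parsing of words into blocks by a left context rule, gap form, transfer of solutions. -/

namespace WK64

open WE45

variable {A X : Type*}

section Out

variable (K : List A → Prop) [DecidablePred K]

/-- blocks completed while reading `u` with history `h` and pending block `p` -/
def out : List A → List A → List A → List (List A)
  | _, _, [] => []
  | h, p, a :: u => if K (h ++ [a]) then (p ++ [a]) :: out (h ++ [a]) [] u
      else out (h ++ [a]) (p ++ [a]) u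

/-- pending block after reading `u` -/
def pend : List A → List A → List A → List A
  | _, p, [] => p
  | h, p, a :: u => if K (h ++ [a]) then pend (h ++ [a]) [] u
      else pend (h ++ [a]) (p ++ [a]) u

theorem out_nil (h p : List A) : out K h p [] = [] := rfl

theorem pend_nil (h p : List A) : pend K h p [] = p := rfl

theorem out_append : ∀ (u : List A) (h p v : List A),
    out K h p (u ++ v) = out K h p u ++ out K (h ++ u) (pend K h p u) v
  | [], h, p, v => by simp [out, pend]
  | a :: u, h, p, v => by
      rw [List.cons_append]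
      simp only [out, pend]
      split_ifs with hK
      · rw [out_append u, List.cons_append, List.append_assoc, List.singleton_append]
      · rw [out_append u, List.append_assoc, List.singleton_append]

theorem pend_append : ∀ (u : List A) (h p v : List A),
    pend K h p (u ++ v) = pend K (h ++ u) (pend K h p u) v
  | [], h, p, v => by simp [pend]
  | a :: u, h, p, v => by
      rw [List.cons_append]
      simp only [pend]
      split_ifs with hK
      · rw [pend_append u, List.append_assoc, List.singleton_append]
      · rw [pend_append u, List.append_assoc, List.singleton_append]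

theorem flatten_out : ∀ (u : List A) (h p : List A),
    (out K h p u).flatten ++ pend K h p u = p ++ u
  | [], h, p => by simp [out, pend]
  | a :: u, h, p => by
      simp only [out, pend]
      split_ifs with hK
      · rw [List.flatten_cons, List.append_assoc, flatten_out u]
        simp
      · rw [flatten_out u]
        simp

/-- the predicate depends on the last `w` letters only -/
def Loc (w : ℕ) : Prop := ∀ h t : List A, w ≤ t.length → (K (h ++ t) ↔ K t)

theorem out_loc {w : ℕ} (hK : Loc K w) : ∀ (u : List A) (h t p : List A), w ≤ t.length →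
    out K (h ++ t) p u = out K t p u
  | [], h, t, p, _ => rfl
  | a :: u, h, t, p, ht => by
      have h1 : w ≤ (t ++ [a]).length := by rw [List.length_append]; omega
      have h2 : K (h ++ (t ++ [a])) ↔ K (t ++ [a]) := hK h (t ++ [a]) h1
      simp only [out, List.append_assoc h t [a], out_loc hK u h (t ++ [a]) _ h1]
      by_cases h3 : K (t ++ [a])
      · rw [if_pos h3, if_pos (h2.2 h3)]
      · rw [if_neg h3, if_neg (fun h4 => h3 (h2.1 h4))]

theorem pend_loc {w : ℕ} (hK : Loc K w) : ∀ (u : List A) (h t p : List A), w ≤ t.length →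
    pend K (h ++ t) p u = pend K t p u
  | [], h, t, p, _ => rfl
  | a :: u, h, t, p, ht => by
      have h1 : w ≤ (t ++ [a]).length := by rw [List.length_append]; omega
      have h2 : K (h ++ (t ++ [a])) ↔ K (t ++ [a]) := hK h (t ++ [a]) h1
      simp only [pend, List.append_assoc h t [a], pend_loc hK u h (t ++ [a]) _ h1]
      by_cases h3 : K (t ++ [a])
      · rw [if_pos h3, if_pos (h2.2 h3)]
      · rw [if_neg h3, if_neg (fun h4 => h3 (h2.1 h4))]

/-- after a completed block nothing is pending -/
theorem pend_of_K (u : List A) (hu : u ≠ []) (h p : List A) (hK : K (h ++ u)) :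
    pend K h p u = [] := by
  obtain ⟨v, a, rfl⟩ : ∃ v a, u = v ++ [a] :=
    ⟨u.dropLast, u.getLast hu, (List.dropLast_append_getLast hu).symm⟩
  rw [pend_append]
  simp only [pend]
  rw [if_pos]
  rw [List.append_assoc]
  exact hK

end Out

section Gap

/-- evaluation of a gap form -/
def evg (σ : X → List A) (G : List A) (t : List (X × List A)) : List A :=
  G ++ t.flatMap (fun r => σ r.1 ++ r.2)

/-- the gaps of a gap form -/
def trs : Option X → List A → List (X × List A) → List (Option X × List A × Option X)
  | o, G, [] => [(o, G, none)]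
  | o, G, r :: t => (o, G, some r.1) :: trs (some r.1) r.2 t

/-- evaluation on the level of blocks -/
def bev (b : Option X × List A × Option X → List (List A)) (τ : X → List (List A)) :
    Option X → List A → List (X × List A) → List (List A)
  | o, G, [] => b (o, G, none)
  | o, G, r :: t => b (o, G, some r.1) ++ (τ r.1 ++ bev b τ (some r.1) r.2 t)

/-- prefix word of an end -/
def ox (p : X → List A) : Option X → List A
  | none => []
  | some x => p x

theorem transfer (b : Option X × List A × Option X → List (List A)) (τ : X → List (List A))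
    (φ : List A → List A) (s' p' : X → List A) : ∀ (t : List (X × List A)) (o : Option X)
    (G : List A), (∀ γ ∈ trs o G t, ((b γ).map φ).flatten = ox s' γ.1 ++ γ.2.1 ++ ox p' γ.2.2) →
      ((bev b τ o G t).map φ).flatten =
        ox s' o ++ evg (fun x => p' x ++ ((τ x).map φ).flatten ++ s' x) G t
  | [], o, G, h => by
      have h1 := h (o, G, none) (by simp [trs])
      simp only [bev, evg, List.flatMap_nil, List.append_nil]
      rw [h1]
      simp [ox]
  | r :: t, o, G, h => by
      have h1 := h (o, G, some r.1) (by simp [trs])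
      have h2 := transfer b τ φ s' p' t (some r.1) r.2
        (fun γ hγ => h γ (by simp only [trs, List.mem_cons]; exact Or.inr hγ))
      simp only [bev, List.map_append, List.flatten_append]
      rw [h1, h2]
      simp only [evg, List.flatMap_cons, ox, List.append_assoc]

/-- gap form of a word with variables: the variables outside `lg` are evaluated -/
def gf (lg : X → Prop) [DecidablePred lg] (σ : X → List A) :
    List (A ⊕ X) → List A × List (X × List A)
  | [] => ([], [])
  | .inl a :: l => (a :: (gf lg σ l).1, (gf lg σ l).2)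
  | .inr x :: l => if lg x then ([], (x, (gf lg σ l).1) :: (gf lg σ l).2)
      else (σ x ++ (gf lg σ l).1, (gf lg σ l).2)

variable (lg : X → Prop) [DecidablePred lg]

theorem evg_gf (σ σ' : X → List A) (h : ∀ x, ¬ lg x → σ' x = σ x) : ∀ l : List (A ⊕ X),
    evg σ' (gf lg σ l).1 (gf lg σ l).2 = sb σ' l
  | [] => rfl
  | .inl a :: l => by
      rw [sb_inl, ← evg_gf σ σ' h l]
      rfl
  | .inr x :: l => by
      rw [sb_inr, ← evg_gf σ σ' h l]
      simp only [gf]
      split_ifs with hx
      · simp [evg]
      · simp [evg, h x hx]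

theorem lg_of_mem (σ : X → List A) : ∀ (l : List (A ⊕ X)) (r : X × List A),
    r ∈ (gf lg σ l).2 → lg r.1
  | [], r, h => by simp [gf] at h
  | .inl a :: l, r, h => lg_of_mem σ l r h
  | .inr x :: l, r, h => by
      simp only [gf] at h
      split_ifs at h with hx
      · rcases List.mem_cons.1 h with h | h
        · rw [h]; exact hx
        · exact lg_of_mem σ l r h
      · exact lg_of_mem σ l r h

theorem mem_trs : ∀ (t : List (X × List A)) (o : Option X) (G : List A)
    (γ : Option X × List A × Option X), γ ∈ trs o G t →
      (γ.1 = o ∨ ∃ r ∈ t, γ.1 = some r.1) ∧ (γ.2.1 = G ∨ ∃ r ∈ t, γ.2.1 = r.2) ∧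
      (γ.2.2 = none ∨ ∃ r ∈ t, γ.2.2 = some r.1)
  | [], o, G, γ, h => by
      simp only [trs, List.mem_singleton] at h
      rw [h]
      exact ⟨Or.inl rfl, Or.inl rfl, Or.inl rfl⟩
  | r :: t, o, G, γ, h => by
      simp only [trs, List.mem_cons] at h
      rcases h with h | h
      · rw [h]
        exact ⟨Or.inl rfl, Or.inl rfl, Or.inr ⟨r, by simp, rfl⟩⟩
      · obtain ⟨h1, h2, h3⟩ := mem_trs t (some r.1) r.2 γ h
        refine ⟨Or.inr ?_, Or.inr ?_, ?_⟩
        · rcases h1 with h1 | ⟨r', h1, h4⟩
          · exact ⟨r, by simp, h1⟩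
          · exact ⟨r', by simp [h1], h4⟩
        · rcases h2 with h2 | ⟨r', h2, h4⟩
          · exact ⟨r, by simp, h2⟩
          · exact ⟨r', by simp [h2], h4⟩
        · rcases h3 with h3 | ⟨r', h3, h4⟩
          · exact Or.inl h3
          · exact Or.inr ⟨r', by simp [h3], h4⟩

theorem length_trs : ∀ (t : List (X × List A)) (o : Option X) (G : List A),
    (trs o G t).length = t.length + 1
  | [], o, G => rfl
  | r :: t, o, G => by simp [trs, length_trs t]

theorem length_gf (σ : X → List A) : ∀ l : List (A ⊕ X), (gf lg σ l).2.length ≤ l.length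
  | [] => le_rfl
  | .inl a :: l => by
      have := length_gf σ l
      simp only [gf, List.length_cons]; omega
  | .inr x :: l => by
      have := length_gf σ l
      simp only [gf]
      split_ifs
      · simp only [List.length_cons]; omega
      · simp only [List.length_cons]; omega

/-- the gap words are short -/
theorem gap_le (σ : X → List A) (S : ℕ) (hS : 1 ≤ S) (h : ∀ x, ¬ lg x → (σ x).length ≤ S) :
    ∀ l : List (A ⊕ X), (gf lg σ l).1.length ≤ l.length * S ∧
      ∀ r ∈ (gf lg σ l).2, r.2.length ≤ l.length * S
  | [] => by simp [gf]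
  | .inl a :: l => by
      obtain ⟨h1, h2⟩ := gap_le σ S hS h l
      simp only [gf, List.length_cons, add_mul, one_mul]
      refine ⟨by omega, fun r hr => ?_⟩
      have := h2 r hr
      omega
  | .inr x :: l => by
      obtain ⟨h1, h2⟩ := gap_le σ S hS h l
      simp only [gf, List.length_cons, add_mul, one_mul]
      split_ifs with hx
      · refine ⟨by simp, fun r hr => ?_⟩
        rcases List.mem_cons.1 hr with hr | hr
        · rw [hr]; show (gf lg σ l).1.length ≤ _; omega
        · have := h2 r hr
          omega
      · have h3 := h x hx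
        refine ⟨?_, fun r hr => ?_⟩
        · show (σ x ++ (gf lg σ l).1).length ≤ _
          rw [List.length_append]; omega
        · have := h2 r hr
          omega

end Gap

section Cut

variable (K : List A → Prop) [DecidablePred K]

/-- data of the cut variables: `σ x = pre x ++ mid x` -/
structure Cut (w : ℕ) (σ pre mid : X → List A) (lg : X → Prop) : Prop where
  loc : Loc K w
  w_pos : 1 ≤ w
  split : ∀ x, lg x → σ x = pre x ++ mid x
  len : ∀ x, lg x → w ≤ (pre x).length
  cut : ∀ x, lg x → K (pre x)

/-- blocks inside a cut variable -/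
def tau (pre mid : X → List A) (x : X) : List (List A) := out K (pre x) [] (mid x)

/-- pending block after a cut variable -/
def sfx (pre mid : X → List A) (x : X) : List A := pend K (pre x) [] (mid x)

/-- blocks of a gap -/
def bl (σ pre mid : X → List A) (γ : Option X × List A × Option X) : List (List A) :=
  out K (ox σ γ.1) (ox (sfx K pre mid) γ.1) (γ.2.1 ++ ox pre γ.2.2) ++
    (if γ.2.2 = none then [pend K (ox σ γ.1) (ox (sfx K pre mid) γ.1) γ.2.1] else [])

variable {K} {w : ℕ} {σ pre mid : X → List A} {lg : X → Prop}

theorem Cut.bl_none (γ : Option X × List A) : bl K σ pre mid (γ.1, γ.2, none) =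
    out K (ox σ γ.1) (ox (sfx K pre mid) γ.1) γ.2 ++
      [pend K (ox σ γ.1) (ox (sfx K pre mid) γ.1) γ.2] := by
  simp [bl, ox]

theorem Cut.bl_some (o : Option X) (G : List A) (y : X) : bl K σ pre mid (o, G, some y) =
    out K (ox σ o) (ox (sfx K pre mid) o) (G ++ pre y) := by
  simp [bl, ox]

omit [DecidablePred K] in
theorem Cut.K_pre (hC : Cut K w σ pre mid lg) {y : X} (hy : lg y) (h : List A) :
    K (h ++ pre y) := (hC.loc h (pre y) (hC.len y hy)).2 (hC.cut y hy)

omit [DecidablePred K] in
theorem Cut.pre_ne (hC : Cut K w σ pre mid lg) {y : X} (hy : lg y) : pre y ≠ [] := by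
  intro h
  have := hC.len y hy
  have := hC.w_pos
  rw [h] at *
  simp at *
  omega

/-- after `G ++ pre y` nothing is pending -/
theorem Cut.pend_pre (hC : Cut K w σ pre mid lg) {y : X} (hy : lg y) (h p G : List A) :
    pend K h p (G ++ pre y) = [] := by
  refine pend_of_K K _ ?_ h p ?_
  · intro h1
    exact hC.pre_ne hy (List.append_eq_nil_iff.1 h1).2
  · rw [← List.append_assoc]
    exact hC.K_pre hy _

theorem Cut.flatten_bl (hC : Cut K w σ pre mid lg) (γ : Option X × List A × Option X)
    (hγ : ∀ y, γ.2.2 = some y → lg y) :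
    (bl K σ pre mid γ).flatten = ox (sfx K pre mid) γ.1 ++ γ.2.1 ++ ox pre γ.2.2 := by
  obtain ⟨o, G, o'⟩ := γ
  cases o' with
  | none =>
    rw [Cut.bl_none (o, G), List.flatten_append, List.flatten_singleton, flatten_out]
    simp [ox]
  | some y =>
    rw [Cut.bl_some]
    have h1 := flatten_out K (G ++ pre y) (ox σ o) (ox (sfx K pre mid) o)
    rw [hC.pend_pre (hγ y rfl), List.append_nil] at h1
    rw [h1]
    simp [ox]

/-- the whole word is parsed gap by gap -/
theorem Cut.bev_eq (hC : Cut K w σ pre mid lg) : ∀ (t : List (X × List A)) (o : Option X)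
    (G : List A), (∀ r ∈ t, lg r.1) →
      bev (bl K σ pre mid) (tau K pre mid) o G t =
        out K (ox σ o) (ox (sfx K pre mid) o) (evg σ G t) ++
          [pend K (ox σ o) (ox (sfx K pre mid) o) (evg σ G t)]
  | [], o, G, _ => by
      simp only [bev, evg, List.flatMap_nil, List.append_nil]
      exact Cut.bl_none (o, G)
  | r :: t, o, G, h => by
      have hr : lg r.1 := h r (by simp)
      have ih := hC.bev_eq t (some r.1) r.2 (fun r' h' => h r' (List.mem_cons_of_mem _ h'))
      simp only [bev]
      rw [ih, Cut.bl_some]
      have e1 : evg σ G (r :: t) = (G ++ pre r.1) ++ (mid r.1 ++ evg σ r.2 t) := by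
        simp only [evg, List.flatMap_cons, hC.split r.1 hr, List.append_assoc]
      have e2 : ox σ o ++ (G ++ pre r.1) = (ox σ o ++ G) ++ pre r.1 := by simp
      have e5 : w ≤ (σ r.1).length := by
        rw [hC.split r.1 hr, List.length_append]
        have := hC.len r.1 hr
        omega
      have e6 : (ox σ o ++ G) ++ pre r.1 ++ mid r.1 = (ox σ o ++ G) ++ σ r.1 := by
        rw [hC.split r.1 hr]; simp
      have e7 : out K (ox σ o ++ (G ++ pre r.1)) [] (mid r.1 ++ evg σ r.2 t) =
          tau K pre mid r.1 ++ out K (σ r.1) (sfx K pre mid r.1) (evg σ r.2 t) := by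
        rw [e2, out_append K (mid r.1), e6, out_loc K hC.loc _ _ _ _ (hC.len r.1 hr),
          pend_loc K hC.loc _ _ _ _ (hC.len r.1 hr), out_loc K hC.loc _ _ _ _ e5]
        rfl
      have e8 : pend K (ox σ o ++ (G ++ pre r.1)) [] (mid r.1 ++ evg σ r.2 t) =
          pend K (σ r.1) (sfx K pre mid r.1) (evg σ r.2 t) := by
        rw [e2, pend_append K (mid r.1), e6,
          pend_loc K hC.loc _ _ _ _ (hC.len r.1 hr), pend_loc K hC.loc _ _ _ _ e5]
        rfl
      rw [e1, out_append K (G ++ pre r.1), pend_append K (G ++ pre r.1), hC.pend_pre hr, e7, e8]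
      simp only [ox, List.append_assoc]

/-- transfer of solutions -/
theorem Cut.transfer [DecidablePred lg] (hC : Cut K w σ pre mid lg) (L R : List (A ⊕ X))
    (hσ : sb σ L = sb σ R) (φ : List A → List A) (s' p' : X → List A)
    (hL : ∀ γ ∈ trs none (gf lg σ L).1 (gf lg σ L).2,
      ((bl K σ pre mid γ).map φ).flatten = ox s' γ.1 ++ γ.2.1 ++ ox p' γ.2.2)
    (hR : ∀ γ ∈ trs none (gf lg σ R).1 (gf lg σ R).2,
      ((bl K σ pre mid γ).map φ).flatten = ox s' γ.1 ++ γ.2.1 ++ ox p' γ.2.2) :
    sb (fun x => if lg x then p' x ++ ((tau K pre mid x).map φ).flatten ++ s' x else σ x) L =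
    sb (fun x => if lg x then p' x ++ ((tau K pre mid x).map φ).flatten ++ s' x else σ x) R := by
  have key : ∀ l : List (A ⊕ X), (∀ γ ∈ trs none (gf lg σ l).1 (gf lg σ l).2,
      ((bl K σ pre mid γ).map φ).flatten = ox s' γ.1 ++ γ.2.1 ++ ox p' γ.2.2) →
      sb (fun x => if lg x then p' x ++ ((tau K pre mid x).map φ).flatten ++ s' x else σ x) l =
        ((out K [] [] (sb σ l) ++ [pend K [] [] (sb σ l)]).map φ).flatten := by
    intro l hl
    have h1 := WK64.transfer (bl K σ pre mid) (tau K pre mid) φ s' p' (gf lg σ l).2 none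
      (gf lg σ l).1 hl
    have h2 := hC.bev_eq (gf lg σ l).2 none (gf lg σ l).1 (lg_of_mem lg σ l)
    have h3 : evg σ (gf lg σ l).1 (gf lg σ l).2 = sb σ l :=
      evg_gf lg σ σ (fun _ _ => rfl) l
    rw [h3] at h2
    have h4 : ox σ (none : Option X) = [] := rfl
    have h5 : ox (sfx K pre mid) (none : Option X) = [] := rfl
    rw [h4, h5] at h2
    rw [h2] at h1
    rw [h1]
    have h6 : ox s' (none : Option X) = [] := rfl
    rw [h6, List.nil_append]
    rw [← evg_gf lg σ (fun x => if lg x then p' x ++ ((tau K pre mid x).map φ).flatten ++ s' x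
      else σ x) (fun x hx => if_neg hx) l]
    have h7 : ∀ r ∈ (gf lg σ l).2, lg r.1 := lg_of_mem lg σ l
    simp only [evg]
    congr 1
    generalize (gf lg σ l).2 = t at h7
    induction t with
    | nil => rfl
    | cons r t ih =>
      rw [List.flatMap_cons, List.flatMap_cons, ih (fun r' h' => h7 r' (List.mem_cons_of_mem _ h')),
        if_pos (h7 r (by simp))]
  rw [key L hL, key R hR, hσ]

end Cut

end WK64
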